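import Mathlib

/-!
# The inequality of van der Corput with the average over the shifts
-/

set_option autoImplicit false

namespace Pool.Agent.Lib.PZ

open Finset

theorem qi_shift (G : ℕ → ℂ) (N H j : ℕ) (hj : j < H) (h1 : ∀ n, n < H - 1 → G n = 0) (h2 : ∀ n, N + H - 1 ≤ n → G n = 0) :
    ∑ m ∈ range (N + H - 1), G (m + j) = ∑ n ∈ range N, G (n + (H - 1)) := by
  have e1 : ∑ m ∈ range (N + H - 1), G (m + j) = ∑ n ∈ Ico j (j + (N + H - 1)), G n := by
    rw [Finset.sum_Ico_eq_sum_range, Nat.add_sub_cancel_left]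
    exact Finset.sum_congr rfl fun m _ => by rw [add_comm]
  have e2 : ∑ n ∈ range N, G (n + (H - 1)) = ∑ n ∈ Ico (H - 1) (N + H - 1), G n := by
    rw [Finset.sum_Ico_eq_sum_range, show N + H - 1 - (H - 1) = N by omega]
    exact Finset.sum_congr rfl fun m _ => by rw [add_comm]
  rw [e1, e2]
  symm
  refine Finset.sum_subset ?_ ?_
  · intro n hn
    rw [Finset.mem_Ico] at hn ⊢
    omega
  · intro n _ hn2
    rw [Finset.mem_Ico] at hn2
    by_cases h : n < H - 1
    · exact h1 n h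
    · exact h2 n (by omega)

theorem qi_count (B : ℕ → ℝ) (hB : ∀ n, 0 ≤ B n) (H j : ℕ) (hj : j < H) :
    ∑ i ∈ range H, B (if i ≤ j then j - i else i - j) ≤ B 0 + 2 * ∑ h ∈ Ico 1 H, B h := by
  have hH : ∑ h ∈ Ico 1 H, B h = ∑ h ∈ range (H - 1), B (h + 1) := by
    rw [Finset.sum_Ico_eq_sum_range]
    exact Finset.sum_congr rfl fun m _ => by rw [add_comm]
  have e0 : ∑ i ∈ range H, B (if i ≤ j then j - i else i - j) =
      ∑ i ∈ range (j + 1), B (j - i) + ∑ i ∈ range (H - (j + 1)), B (i + 1) := by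
    have : H = (j + 1) + (H - (j + 1)) := by omega
    conv_lhs => rw [this]
    rw [Finset.sum_range_add]
    congr 1
    · refine Finset.sum_congr rfl fun i hi => ?_
      rw [Finset.mem_range] at hi
      rw [if_pos (by omega)]
    · refine Finset.sum_congr rfl fun i _ => ?_
      rw [if_neg (by omega)]
      congr 1
      omega
  have e1 : ∑ i ∈ range (j + 1), B (j - i) = ∑ i ∈ range (j + 1), B i := by
    rw [← Finset.sum_range_reflect B (j + 1)]
    exact Finset.sum_congr rfl fun i _ => by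
      rw [show j + 1 - 1 - i = j - i by omega]
  have e2 : ∑ i ∈ range (j + 1), B i = B 0 + ∑ i ∈ range j, B (i + 1) := by
    rw [Finset.sum_range_succ', add_comm]
  have e3 : ∑ i ∈ range j, B (i + 1) ≤ ∑ h ∈ range (H - 1), B (h + 1) :=
    Finset.sum_le_sum_of_subset_of_nonneg (Finset.range_mono (by omega)) fun i _ _ => hB _
  have e4 : ∑ i ∈ range (H - (j + 1)), B (i + 1) ≤ ∑ h ∈ range (H - 1), B (h + 1) :=
    Finset.sum_le_sum_of_subset_of_nonneg (Finset.range_mono (by omega)) fun i _ _ => hB _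
  rw [e0, e1, e2, hH]
  linarith

/-- **van der Corput's inequality** -/
theorem vdc_ineq (z : ℕ → ℂ) (hz : ∀ n, ‖z n‖ ≤ 1) (N H : ℕ) (hH : 1 ≤ H) (hHN : H ≤ N) :
    ‖∑ n ∈ range N, z n‖ ^ 2 ≤ 2 * (N : ℝ) ^ 2 / H +
      4 * N / H * ∑ h ∈ Ico 1 H, ‖∑ n ∈ range (N - h), z (n + h) * (starRingEnd ℂ) (z n)‖ := by
  set G : ℕ → ℂ := fun n => if H - 1 ≤ n ∧ n < N + H - 1 then z (n - (H - 1)) else 0 with hG
  set B : ℕ → ℝ := fun h => ‖∑ n ∈ range (N - h), z (n + h) * (starRingEnd ℂ) (z n)‖ with hB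
  have hHr : (0 : ℝ) < H := by exact_mod_cast hH
  have hNr : (0 : ℝ) < N := by exact_mod_cast (lt_of_lt_of_le hH hHN)
  have hB0 : ∀ h, 0 ≤ B h := fun h => norm_nonneg _
  have hBz : B 0 ≤ N := by
    refine (norm_sum_le _ _).trans ?_
    refine (Finset.sum_le_sum (g := fun _ => (1 : ℝ)) fun n _ => ?_).trans (by simp)
    rw [norm_mul, RCLike.norm_conj]
    exact mul_le_one₀ (hz _) (norm_nonneg _) (hz _)
  have hG1 : ∀ n, n < H - 1 → G n = 0 := fun n hn => by
    rw [hG]
    simp only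
    rw [if_neg (by omega)]
  have hG2 : ∀ n, N + H - 1 ≤ n → G n = 0 := fun n hn => by
    rw [hG]
    simp only
    rw [if_neg (by omega)]
  have hGv : ∀ n, n < N → G (n + (H - 1)) = z n := fun n hn => by
    rw [hG]
    simp only
    rw [if_pos (by omega), Nat.add_sub_cancel]
  -- the sum
  have s1 : ∑ m ∈ range (N + H - 1), ∑ j ∈ range H, G (m + j) = H * ∑ n ∈ range N, z n := by
    rw [Finset.sum_comm]
    have : ∀ j ∈ range H, ∑ m ∈ range (N + H - 1), G (m + j) = ∑ n ∈ range N, z n := by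
      intro j hj
      rw [qi_shift G N H j (Finset.mem_range.1 hj) hG1 hG2]
      exact Finset.sum_congr rfl fun n hn => hGv n (Finset.mem_range.1 hn)
    rw [Finset.sum_congr rfl this, Finset.sum_const, Finset.card_range, nsmul_eq_mul]
  -- the correlations
  have c0 : ∀ i h, i + h < H → ∑ m ∈ range (N + H - 1), G (m + i + h) * (starRingEnd ℂ) (G (m + i)) =
      ∑ n ∈ range (N - h), z (n + h) * (starRingEnd ℂ) (z n) := by
    intro i h hih
    have := qi_shift (fun n => G (n + h) * (starRingEnd ℂ) (G n)) N H i (by omega)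
      (fun n hn => by rw [hG1 n hn, map_zero, mul_zero])
      (fun n hn => by rw [hG2 n hn, map_zero, mul_zero])
    rw [this]
    have hN : N = (N - h) + h := by omega
    conv_lhs => rw [hN]
    rw [Finset.sum_range_add]
    have z2 : ∑ x ∈ range h, G (N - h + x + (H - 1) + h) * (starRingEnd ℂ) (G (N - h + x + (H - 1))) = 0 := by
      refine Finset.sum_eq_zero fun x _ => ?_
      rw [hG2 (N - h + x + (H - 1) + h) (by omega), zero_mul]
    rw [z2, add_zero]
    refine Finset.sum_congr rfl fun n hn => ?_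
    rw [Finset.mem_range] at hn
    rw [hGv n (by omega), show n + (H - 1) + h = n + h + (H - 1) by ring, hGv (n + h) (by omega)]
  have c1 : ∀ i ∈ range H, ∀ j ∈ range H,
      ‖∑ m ∈ range (N + H - 1), G (m + j) * (starRingEnd ℂ) (G (m + i))‖ = B (if i ≤ j then j - i else i - j) := by
    intro i hi j hj
    rw [Finset.mem_range] at hi hj
    by_cases hij : i ≤ j
    · rw [if_pos hij]
      have := c0 i (j - i) (by omega)
      rw [hB]
      simp only
      rw [← this]
      congr 1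
      refine Finset.sum_congr rfl fun m _ => ?_
      rw [show m + i + (j - i) = m + j by omega]
    · rw [if_neg hij]
      have := c0 j (i - j) (by omega)
      rw [hB]
      simp only
      rw [← this, ← RCLike.norm_conj, map_sum]
      congr 1
      refine Finset.sum_congr rfl fun m _ => ?_
      rw [show m + j + (i - j) = m + i by omega, map_mul, Complex.conj_conj, mul_comm]
  have hE : ∑ m ∈ range (N + H - 1), ‖∑ j ∈ range H, G (m + j)‖ ^ 2 ≤
      H * (N + 2 * ∑ h ∈ Ico 1 H, B h) := by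
    have e1 : ((∑ m ∈ range (N + H - 1), ‖∑ j ∈ range H, G (m + j)‖ ^ 2 : ℝ) : ℂ) =
        ∑ j ∈ range H, ∑ i ∈ range H, ∑ m ∈ range (N + H - 1), G (m + j) * (starRingEnd ℂ) (G (m + i)) := by
      have e0 : ∀ m, (((‖∑ j ∈ range H, G (m + j)‖ ^ 2 : ℝ)) : ℂ) =
          ∑ j ∈ range H, ∑ i ∈ range H, G (m + j) * (starRingEnd ℂ) (G (m + i)) := by
        intro m
        rw [Complex.ofReal_pow, ← Complex.mul_conj', map_sum, Finset.sum_mul_sum]
      rw [Complex.ofReal_sum]
      simp_rw [e0]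
      rw [Finset.sum_comm]
      refine Finset.sum_congr rfl fun j _ => ?_
      rw [Finset.sum_comm]
    have e3 : ∑ m ∈ range (N + H - 1), ‖∑ j ∈ range H, G (m + j)‖ ^ 2 =
        ‖((∑ m ∈ range (N + H - 1), ‖∑ j ∈ range H, G (m + j)‖ ^ 2 : ℝ) : ℂ)‖ := by
      rw [Complex.norm_real, Real.norm_of_nonneg (Finset.sum_nonneg fun _ _ => by positivity)]
    rw [e3, e1]
    refine (norm_sum_le _ _).trans ?_
    calc ∑ j ∈ range H, ‖∑ i ∈ range H, ∑ m ∈ range (N + H - 1), G (m + j) * (starRingEnd ℂ) (G (m + i))‖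
        ≤ ∑ _j ∈ range H, ((N : ℝ) + 2 * ∑ h ∈ Ico 1 H, B h) := by
          refine Finset.sum_le_sum fun j hj => ?_
          refine (norm_sum_le _ _).trans ?_
          rw [Finset.sum_congr rfl fun i hi => c1 i hi j hj]
          have := qi_count B hB0 H j (Finset.mem_range.1 hj)
          linarith
      _ = _ := by rw [Finset.sum_const, Finset.card_range, nsmul_eq_mul]
  have hcs : ‖(H : ℂ) * ∑ n ∈ range N, z n‖ ^ 2 ≤ ((N + H - 1 : ℕ) : ℝ) *
      (H * (N + 2 * ∑ h ∈ Ico 1 H, B h)) := by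
    rw [← s1]
    have := sq_sum_le_card_mul_sum_sq (s := range (N + H - 1)) (f := fun m => ‖∑ j ∈ range H, G (m + j)‖)
    rw [Finset.card_range] at this
    exact ((pow_le_pow_left₀ (norm_nonneg _) (norm_sum_le _ _) 2).trans this).trans
      (mul_le_mul_of_nonneg_left hE (Nat.cast_nonneg _))
  have hM : ((N + H - 1 : ℕ) : ℝ) ≤ 2 * N := by
    have : N + H - 1 ≤ 2 * N := by omega
    exact_mod_cast this
  have hSB : 0 ≤ ∑ h ∈ Ico 1 H, B h := Finset.sum_nonneg fun h _ => hB0 h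
  rw [norm_mul, Complex.norm_natCast, mul_pow] at hcs
  have h3 : (H : ℝ) ^ 2 * ‖∑ n ∈ range N, z n‖ ^ 2 ≤ 2 * N * (H * (N + 2 * ∑ h ∈ Ico 1 H, B h)) :=
    hcs.trans (mul_le_mul_of_nonneg_right hM (by positivity))
  have h4 : 2 * (N : ℝ) ^ 2 / H + 4 * N / H * ∑ h ∈ Ico 1 H, B h =
      (2 * N * (H * (N + 2 * ∑ h ∈ Ico 1 H, B h))) / (H : ℝ) ^ 2 := by
    field_simp
    ring
  rw [h4, le_div_iff₀ (by positivity), mul_comm]
  exact h3

end Pool.Agent.Lib.PZ
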