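import Pool.Agent.Lib.G3.Sdt
import Pool.Agent.Lib.PZ.QI

/-!
# The discrete `q`-th difference test
-/

set_option autoImplicit false

namespace Pool.Agent.Lib.PZ

open Finset Complex

/-- the `q`-th forward difference -/
def dd : ℕ → (ℕ → ℝ) → ℕ → ℝ
  | 0, θ, n => θ n
  | q + 1, θ, n => dd q θ (n + 1) - dd q θ n

theorem dd_sub (q : ℕ) (θ η : ℕ → ℝ) (n : ℕ) : dd q (fun m => θ m - η m) n = dd q θ n - dd q η n := by
  induction q generalizing n with
  | zero => rfl
  | succ q ih =>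
    show dd q (fun m => θ m - η m) (n + 1) - dd q (fun m => θ m - η m) n = _
    rw [ih, ih]
    simp only [dd]
    ring

theorem dd_shift (q h : ℕ) (θ : ℕ → ℝ) (n : ℕ) : dd q (fun m => θ (m + h)) n = dd q θ (n + h) := by
  induction q generalizing n with
  | zero => rfl
  | succ q ih =>
    show dd q (fun m => θ (m + h)) (n + 1) - dd q (fun m => θ (m + h)) n = _
    rw [ih, ih]
    simp only [dd]
    rw [show n + 1 + h = n + h + 1 by ring]

theorem dd_tel (q h : ℕ) (θ : ℕ → ℝ) (n : ℕ) :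
    dd q (fun m => θ (m + h) - θ m) n = ∑ j ∈ range h, dd (q + 1) θ (n + j) := by
  rw [dd_sub, dd_shift]
  induction h with
  | zero => simp
  | succ h ih =>
    rw [Finset.sum_range_succ, ← ih]
    simp only [dd]
    rw [show n + (h + 1) = n + h + 1 by ring]
    ring

/-- the exponent `1 / (2^q - 2)` -/
noncomputable def kq (q : ℕ) : ℝ := 1 / ((2 : ℝ) ^ q - 2)

/-- the exponent `1 - 4 / 2^q` -/
noncomputable def lq (q : ℕ) : ℝ := 1 - 4 / (2 : ℝ) ^ q

theorem four_le {q : ℕ} (hq : 2 ≤ q) : (4 : ℝ) ≤ (2 : ℝ) ^ q := by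
  calc (4 : ℝ) = 2 ^ 2 := by norm_num
    _ ≤ 2 ^ q := pow_le_pow_right₀ (by norm_num) hq

theorem kq_pos {q : ℕ} (hq : 2 ≤ q) : 0 < kq q := by
  have := four_le hq
  unfold kq
  have h : (0 : ℝ) < 2 ^ q - 2 := by linarith
  positivity

theorem kq_le {q : ℕ} (hq : 2 ≤ q) : kq q ≤ 1 / 2 := by
  have := four_le hq
  unfold kq
  exact one_div_le_one_div_of_le (by norm_num) (by linarith)

theorem lq_nonneg {q : ℕ} (hq : 2 ≤ q) : 0 ≤ lq q := by
  have := four_le hq
  unfold lq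
  rw [sub_nonneg, div_le_one (by positivity)]
  exact this

/-- `∑_{1 ≤ h < H} h^(-κ) ≤ 2 H^(1-κ)` for `κ ≤ 1/2` -/
theorem sum_sqrt (H : ℕ) : ∑ h ∈ Ico 1 (H + 1), 1 / Real.sqrt h ≤ 2 * Real.sqrt H := by
  induction H with
  | zero => simp
  | succ H ih =>
    rw [Finset.sum_Ico_succ_top (by omega)]
    have h1 : (0 : ℝ) < Real.sqrt ((H + 1 : ℕ) : ℝ) := Real.sqrt_pos.2 (by positivity)
    have h2 : Real.sqrt ((H + 1 : ℕ) : ℝ) ^ 2 = H + 1 := by
      rw [Real.sq_sqrt (by positivity)]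
      push_cast
      ring
    have h3 : Real.sqrt (H : ℝ) ^ 2 = H := Real.sq_sqrt (by positivity)
    have h4 : 0 ≤ Real.sqrt (H : ℝ) := Real.sqrt_nonneg _
    have h5 : 1 / Real.sqrt ((H + 1 : ℕ) : ℝ) ≤ 2 * (Real.sqrt ((H + 1 : ℕ) : ℝ) - Real.sqrt (H : ℝ)) := by
      rw [div_le_iff₀ h1]
      nlinarith [sq_nonneg (Real.sqrt ((H + 1 : ℕ) : ℝ) - Real.sqrt (H : ℝ))]
    linarith

theorem sum_kap (κ : ℝ) (hκ2 : κ ≤ 1 / 2) (H : ℕ) (hH : 1 ≤ H) (lam : ℝ) (hl : 0 < lam) :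
    ∑ h ∈ Ico 1 H, (h * lam) ^ (-κ) ≤ 2 * H * (H * lam) ^ (-κ) := by
  have hHr : (0 : ℝ) < H := by exact_mod_cast hH
  have h1 : ∀ h ∈ Ico 1 H, ((h : ℝ) * lam) ^ (-κ) ≤ (H * lam) ^ (-κ) * (Real.sqrt H * (1 / Real.sqrt h)) := by
    intro h hh
    rw [Finset.mem_Ico] at hh
    have hh0 : (0 : ℝ) < h := by exact_mod_cast hh.1
    have hhH : (h : ℝ) ≤ H := by exact_mod_cast hh.2.le
    have e1 : ((h : ℝ) * lam) ^ (-κ) = (H * lam) ^ (-κ) * (H / h) ^ κ := by
      rw [Real.rpow_neg (by positivity), Real.rpow_neg (by positivity), Real.mul_rpow hh0.le hl.le,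
        Real.mul_rpow hHr.le hl.le, Real.div_rpow hHr.le hh0.le]
      have a1 : (0 : ℝ) < (h : ℝ) ^ κ := Real.rpow_pos_of_pos hh0 _
      have a2 : (0 : ℝ) < (H : ℝ) ^ κ := Real.rpow_pos_of_pos hHr _
      have a3 : (0 : ℝ) < lam ^ κ := Real.rpow_pos_of_pos hl _
      field_simp
    have e2 : ((H : ℝ) / h) ^ κ ≤ Real.sqrt H * (1 / Real.sqrt h) := by
      have : Real.sqrt H * (1 / Real.sqrt h) = ((H : ℝ) / h) ^ (1 / 2 : ℝ) := by
        rw [← Real.sqrt_eq_rpow, Real.sqrt_div hHr.le]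
        ring
      rw [this]
      exact Real.rpow_le_rpow_of_exponent_le ((one_le_div hh0).2 hhH) hκ2
    rw [e1]
    exact mul_le_mul_of_nonneg_left e2 (by positivity)
  refine (Finset.sum_le_sum h1).trans ?_
  rw [← Finset.mul_sum, ← Finset.mul_sum]
  have h2 : ∑ h ∈ Ico 1 H, 1 / Real.sqrt (h : ℝ) ≤ 2 * Real.sqrt H := by
    obtain ⟨H', rfl⟩ : ∃ H', H = H' + 1 := ⟨H - 1, by omega⟩
    refine (sum_sqrt H').trans ?_
    have : Real.sqrt (H' : ℝ) ≤ Real.sqrt ((H' + 1 : ℕ) : ℝ) :=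
      Real.sqrt_le_sqrt (by push_cast; linarith)
    linarith
  have h3 : Real.sqrt (H : ℝ) * (2 * Real.sqrt H) = 2 * H := by
    rw [show Real.sqrt (H : ℝ) * (2 * Real.sqrt H) = 2 * (Real.sqrt H * Real.sqrt H) by ring,
      Real.mul_self_sqrt hHr.le]
  have h4 : Real.sqrt (H : ℝ) * ∑ h ∈ Ico 1 H, 1 / Real.sqrt (h : ℝ) ≤ 2 * H := by
    rw [← h3]
    exact mul_le_mul_of_nonneg_left h2 (Real.sqrt_nonneg _)
  calc ((H : ℝ) * lam) ^ (-κ) * (Real.sqrt H * ∑ h ∈ Ico 1 H, 1 / Real.sqrt (h : ℝ))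
      ≤ (H * lam) ^ (-κ) * (2 * H) := mul_le_mul_of_nonneg_left h4 (by positivity)
    _ = _ := by ring

/-- **the `q`-th difference test** -/
theorem qdt (q : ℕ) (hq : 2 ≤ q) (C : ℝ) (hC : 1 ≤ C) : ∃ K : ℝ, 1 ≤ K ∧ ∀ (θ : ℕ → ℝ) (N : ℕ) (lam : ℝ),
    1 ≤ N → 0 < lam → (∀ n, n + q ≤ N → lam ≤ dd q θ n) → (∀ n, n + q ≤ N → dd q θ n ≤ C * lam) →
    ‖∑ n ∈ range N, Complex.exp (I * (θ n : ℂ))‖ ≤
      K * (N * lam ^ kq q + (N : ℝ) ^ lq q * lam ^ (-kq q)) := by
  induction q, hq using Nat.le_induction with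
  | base =>
    refine ⟨63 * C, by linarith, fun θ N lam hN hl h1 h2 => ?_⟩
    have hdd : ∀ n, dd 2 θ n = θ (n + 2) - 2 * θ (n + 1) + θ n := by
      intro n
      simp only [dd]
      ring
    have h := G3.sdt θ N lam C hl hC (fun n hn => by rw [← hdd]; exact h1 n (by omega))
      (fun n hn => by rw [← hdd]; exact h2 n (by omega))
    refine h.trans ?_
    have e1 : kq 2 = 1 / 2 := by unfold kq; norm_num
    have e2 : lq 2 = 0 := by unfold lq; norm_num
    rw [e1, e2, Real.rpow_zero, one_mul, Real.rpow_neg hl.le, ← Real.sqrt_eq_rpow]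
    have h3 : (0 : ℝ) ≤ 1 / Real.sqrt lam := by positivity
    have h4 : (Real.sqrt lam)⁻¹ = 1 / Real.sqrt lam := by rw [one_div]
    rw [h4]
    nlinarith
  | succ q hq ih =>
    obtain ⟨K, hK, hK2⟩ := ih
    have hQ := four_le hq
    set Q : ℝ := (2 : ℝ) ^ q with hQd
    set κ : ℝ := kq q with hκ
    have hκv : κ = 1 / (Q - 2) := rfl
    have hκ0 : 0 < κ := kq_pos hq
    have hκ2 : κ ≤ 1 / 2 := kq_le hq
    set η : ℝ := 1 / (Q - 1) with hη
    have hη0 : 0 < η := by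
      have : 0 < Q - 1 := by linarith
      positivity
    have hk' : kq (q + 1) = η / 2 := by
      unfold kq
      rw [hη, pow_succ, ← hQd]
      have : Q - 1 ≠ 0 := by linarith
      have h' : Q * 2 - 2 ≠ 0 := by linarith
      field_simp
    have hl' : lq (q + 1) = 1 - 2 / Q := by
      unfold lq
      rw [pow_succ, ← hQd]
      have : Q ≠ 0 := by linarith
      field_simp
      ring
    have hl0 : lq q = 1 - 4 / Q := rfl
    have hηκ : (1 - η) * κ = η := by
      rw [hη, hκv]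
      have h1 : Q - 1 ≠ 0 := by linarith
      have h2 : Q - 2 ≠ 0 := by linarith
      field_simp
      ring
    refine ⟨2 + 8 * K, by linarith, fun θ N lam hN hl h1 h2 => ?_⟩
    have hNr : (1 : ℝ) ≤ N := by exact_mod_cast hN
    have hN0 : (0 : ℝ) < N := by linarith
    have htriv : ‖∑ n ∈ range N, Complex.exp (I * (θ n : ℂ))‖ ≤ N := by
      refine (norm_sum_le _ _).trans ?_
      rw [Finset.sum_congr rfl fun n _ => G3.norm_eI (θ n)]
      simp
    rw [hk', hl']
    set X : ℝ := N * lam ^ (η / 2) with hX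
    set Y : ℝ := (N : ℝ) ^ (1 - 2 / Q) * lam ^ (-(η / 2)) with hY
    have hX0 : 0 ≤ X := by positivity
    have hY0 : 0 ≤ Y := by positivity
    rcases le_or_gt 1 lam with hlam | hlam
    · -- `lam ≥ 1`
      have : (1 : ℝ) ≤ lam ^ (η / 2) := Real.one_le_rpow hlam (by positivity)
      have h3 : (N : ℝ) ≤ X := by
        rw [hX]
        nlinarith
      have h4 : X + Y ≤ (2 + 8 * K) * (X + Y) := by nlinarith
      linarith
    have hle1 : lam ^ (-η) ≥ 1 := Real.one_le_rpow_of_pos_of_le_one_of_nonpos hl hlam.le (by linarith)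
    set H : ℕ := ⌈lam ^ (-η)⌉₊ with hH
    have hHa : lam ^ (-η) ≤ H := Nat.le_ceil _
    have hHb : (H : ℝ) ≤ 2 * lam ^ (-η) := by
      have := Nat.ceil_lt_add_one (show 0 ≤ lam ^ (-η) by positivity)
      rw [← hH] at this
      linarith
    have hH1 : 1 ≤ H := by
      have : (1 : ℝ) ≤ H := le_trans hle1 hHa
      exact_mod_cast this
    have hHr : (0 : ℝ) < H := by exact_mod_cast hH1
    rcases Nat.lt_or_ge N H with hNH | hHN
    · -- `H > N`: the second term
      have h3 : (N : ℝ) / 2 ≤ lam ^ (-η) := by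
        have : (N : ℝ) ≤ H := by exact_mod_cast hNH.le
        linarith
      have h4 : lam ^ (-(η / 2)) = Real.sqrt (lam ^ (-η)) := by
        rw [Real.sqrt_eq_rpow, ← Real.rpow_mul hl.le]
        congr 1
        ring
      have h5 : Real.sqrt N / 2 ≤ lam ^ (-(η / 2)) := by
        rw [h4]
        apply Real.le_sqrt_of_sq_le
        rw [div_pow, Real.sq_sqrt hN0.le]
        linarith
      have h6 : Real.sqrt N ≤ (N : ℝ) ^ (1 - 2 / Q) := by
        rw [Real.sqrt_eq_rpow]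
        apply Real.rpow_le_rpow_of_exponent_le hNr
        have : 2 / Q ≤ 1 / 2 := by
          rw [div_le_div_iff₀ (by linarith) (by norm_num)]
          linarith
        linarith
      have h7 : (N : ℝ) / 2 ≤ Y := by
        have : (N : ℝ) = Real.sqrt N * Real.sqrt N := (Real.mul_self_sqrt hN0.le).symm
        calc (N : ℝ) / 2 = Real.sqrt N * (Real.sqrt N / 2) := by rw [← mul_div_assoc, ← this]
          _ ≤ _ := by
            rw [hY]
            exact mul_le_mul h6 h5 (by positivity) (by positivity)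
      have h8 : 2 * (X + Y) ≤ (2 + 8 * K) * (X + Y) := by nlinarith
      linarith
    -- the main case
    have hv := vdc_ineq (fun n => Complex.exp (I * (θ n : ℂ))) (fun n => (G3.norm_eI _).le) N H hH1 hHN
    have hS : ∀ h ∈ Ico 1 H, ‖∑ n ∈ range (N - h), Complex.exp (I * (θ (n + h) : ℂ)) *
        (starRingEnd ℂ) (Complex.exp (I * (θ n : ℂ)))‖ ≤
        K * (N * (H * lam) ^ κ) + K * (N : ℝ) ^ (1 - 4 / Q) * (h * lam) ^ (-κ) := by
      intro h hh
      rw [Finset.mem_Ico] at hh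
      have hh0 : (0 : ℝ) < h := by exact_mod_cast hh.1
      have e1 : ∑ n ∈ range (N - h), Complex.exp (I * (θ (n + h) : ℂ)) *
          (starRingEnd ℂ) (Complex.exp (I * (θ n : ℂ))) =
          ∑ n ∈ range (N - h), Complex.exp (I * (((fun m => θ (m + h) - θ m) n : ℝ) : ℂ)) := by
        refine Finset.sum_congr rfl fun n _ => ?_
        rw [← Complex.exp_conj, ← Complex.exp_add]
        congr 1
        rw [map_mul, Complex.conj_I, Complex.conj_ofReal]
        push_cast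
        ring
      rw [e1]
      have h3 := hK2 (fun m => θ (m + h) - θ m) (N - h) (h * lam) (by omega) (by positivity)
        (fun n hn => by
          rw [dd_tel]
          calc (h : ℝ) * lam = ∑ _j ∈ range h, lam := by rw [Finset.sum_const, Finset.card_range, nsmul_eq_mul]
            _ ≤ _ := Finset.sum_le_sum fun j hj => h1 (n + j) (by
              rw [Finset.mem_range] at hj
              omega))
        (fun n hn => by
          rw [dd_tel]
          calc _ ≤ ∑ _j ∈ range h, C * lam := Finset.sum_le_sum fun j hj => h2 (n + j) (by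
                rw [Finset.mem_range] at hj
                omega)
            _ = _ := by rw [Finset.sum_const, Finset.card_range, nsmul_eq_mul]; ring)
      refine h3.trans ?_
      have hNh : ((N - h : ℕ) : ℝ) ≤ N := by exact_mod_cast Nat.sub_le _ _
      have e2 : ((N - h : ℕ) : ℝ) * (h * lam) ^ κ ≤ N * (H * lam) ^ κ := by
        refine mul_le_mul hNh ?_ (by positivity) (by positivity)
        refine Real.rpow_le_rpow (by positivity) ?_ hκ0.le
        refine mul_le_mul_of_nonneg_right ?_ hl.le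
        exact_mod_cast hh.2.le
      have e3 : ((N - h : ℕ) : ℝ) ^ lq q * (h * lam) ^ (-κ) ≤ (N : ℝ) ^ (1 - 4 / Q) * (h * lam) ^ (-κ) := by
        rw [← hl0]
        refine mul_le_mul_of_nonneg_right ?_ (by positivity)
        exact Real.rpow_le_rpow (Nat.cast_nonneg _) hNh (lq_nonneg hq)
      calc K * (((N - h : ℕ) : ℝ) * (h * lam) ^ κ + ((N - h : ℕ) : ℝ) ^ lq q * (h * lam) ^ (-κ))
          ≤ K * (N * (H * lam) ^ κ + (N : ℝ) ^ (1 - 4 / Q) * (h * lam) ^ (-κ)) :=
            mul_le_mul_of_nonneg_left (add_le_add e2 e3) (by linarith)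
        _ = _ := by ring
    have hsum : ∑ h ∈ Ico 1 H, ‖∑ n ∈ range (N - h), Complex.exp (I * (θ (n + h) : ℂ)) *
        (starRingEnd ℂ) (Complex.exp (I * (θ n : ℂ)))‖ ≤
        H * (K * (N * (H * lam) ^ κ) + 2 * K * (N : ℝ) ^ (1 - 4 / Q) * (H * lam) ^ (-κ)) := by
      refine (Finset.sum_le_sum hS).trans ?_
      rw [Finset.sum_add_distrib, Finset.sum_const, ← Finset.mul_sum, Nat.card_Ico, nsmul_eq_mul]
      have e1 : ((H - 1 : ℕ) : ℝ) ≤ H := by exact_mod_cast Nat.sub_le _ _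
      have e2 := sum_kap κ hκ2 H hH1 lam hl
      have e3 : ((H - 1 : ℕ) : ℝ) * (K * (N * (H * lam) ^ κ)) ≤ H * (K * (N * (H * lam) ^ κ)) :=
        mul_le_mul_of_nonneg_right e1 (by positivity)
      have e4 : K * (N : ℝ) ^ (1 - 4 / Q) * ∑ h ∈ Ico 1 H, ((h : ℝ) * lam) ^ (-κ) ≤
          K * (N : ℝ) ^ (1 - 4 / Q) * (2 * H * (H * lam) ^ (-κ)) :=
        mul_le_mul_of_nonneg_left e2 (by positivity)
      calc _ ≤ H * (K * (N * (H * lam) ^ κ)) + K * (N : ℝ) ^ (1 - 4 / Q) * (2 * H * (H * lam) ^ (-κ)) :=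
            add_le_add e3 e4
        _ = _ := by ring
    -- the size of `H`
    have r1 : ((H : ℝ) * lam) ^ κ ≤ 2 * lam ^ η := by
      have a1 : (H : ℝ) * lam ≤ 2 * lam ^ (1 - η) := by
        calc (H : ℝ) * lam ≤ (2 * lam ^ (-η)) * lam := mul_le_mul_of_nonneg_right hHb hl.le
          _ = 2 * (lam ^ (-η) * lam ^ (1 : ℝ)) := by rw [Real.rpow_one]; ring
          _ = 2 * lam ^ (1 - η) := by rw [← Real.rpow_add hl]; congr 2; ring
      calc ((H : ℝ) * lam) ^ κ ≤ (2 * lam ^ (1 - η)) ^ κ := Real.rpow_le_rpow (by positivity) a1 hκ0.le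
        _ = 2 ^ κ * lam ^ η := by
            rw [Real.mul_rpow (by norm_num) (by positivity), ← Real.rpow_mul hl.le, hηκ]
        _ ≤ 2 * lam ^ η := by
            refine mul_le_mul_of_nonneg_right ?_ (by positivity)
            calc (2 : ℝ) ^ κ ≤ 2 ^ (1 : ℝ) := Real.rpow_le_rpow_of_exponent_le (by norm_num) (by linarith)
              _ = 2 := Real.rpow_one 2
    have r2 : ((H : ℝ) * lam) ^ (-κ) ≤ lam ^ (-η) := by
      have a1 : lam ^ (1 - η) ≤ (H : ℝ) * lam := by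
        calc lam ^ (1 - η) = lam ^ (-η) * lam ^ (1 : ℝ) := by rw [← Real.rpow_add hl]; congr 1; ring
          _ = lam ^ (-η) * lam := by rw [Real.rpow_one]
          _ ≤ _ := mul_le_mul_of_nonneg_right hHa hl.le
      calc ((H : ℝ) * lam) ^ (-κ) ≤ (lam ^ (1 - η)) ^ (-κ) :=
            Real.rpow_le_rpow_of_nonpos (by positivity) a1 (by linarith)
        _ = lam ^ (-η) := by
            rw [← Real.rpow_mul hl.le]
            congr 1
            linarith
    have r3 : 1 / (H : ℝ) ≤ lam ^ η := by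
      rw [div_le_iff₀ hHr]
      calc (1 : ℝ) = lam ^ η * lam ^ (-η) := by
            rw [← Real.rpow_add hl, add_neg_cancel, Real.rpow_zero]
        _ ≤ _ := mul_le_mul_of_nonneg_left hHa (by positivity)
    have hX2 : X ^ 2 = (N : ℝ) ^ 2 * lam ^ η := by
      rw [hX, mul_pow, ← Real.rpow_natCast (lam ^ (η / 2)) 2, ← Real.rpow_mul hl.le]
      congr 2
      push_cast
      ring
    have hY2 : Y ^ 2 = (N : ℝ) * (N : ℝ) ^ (1 - 4 / Q) * lam ^ (-η) := by
      rw [hY, mul_pow, ← Real.rpow_natCast (lam ^ (-(η / 2))) 2, ← Real.rpow_mul hl.le,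
        ← Real.rpow_natCast ((N : ℝ) ^ (1 - 2 / Q)) 2, ← Real.rpow_mul hN0.le]
      have : (N : ℝ) * (N : ℝ) ^ (1 - 4 / Q) = (N : ℝ) ^ (1 + (1 - 4 / Q)) := by
        rw [Real.rpow_add hN0, Real.rpow_one]
      rw [this]
      congr 2
      · push_cast
        have : Q ≠ 0 := by linarith
        field_simp
        ring
      · push_cast
        ring
    have hfin : ‖∑ n ∈ range N, Complex.exp (I * (θ n : ℂ))‖ ^ 2 ≤ ((2 + 8 * K) * (X + Y)) ^ 2 := by
      have b1 : 2 * (N : ℝ) ^ 2 / H ≤ 2 * X ^ 2 := by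
        rw [hX2]
        calc 2 * (N : ℝ) ^ 2 / H = 2 * (N : ℝ) ^ 2 * (1 / H) := by ring
          _ ≤ 2 * (N : ℝ) ^ 2 * lam ^ η := mul_le_mul_of_nonneg_left r3 (by positivity)
          _ = _ := by ring
      have b2 : 4 * (N : ℝ) / H * ∑ h ∈ Ico 1 H, ‖∑ n ∈ range (N - h), Complex.exp (I * (θ (n + h) : ℂ)) *
          (starRingEnd ℂ) (Complex.exp (I * (θ n : ℂ)))‖ ≤ 8 * K * X ^ 2 + 8 * K * Y ^ 2 := by
        calc _ ≤ 4 * (N : ℝ) / H * (H * (K * (N * (H * lam) ^ κ) +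
              2 * K * (N : ℝ) ^ (1 - 4 / Q) * (H * lam) ^ (-κ))) :=
              mul_le_mul_of_nonneg_left hsum (by positivity)
          _ = 4 * K * (N : ℝ) ^ 2 * (H * lam) ^ κ + 8 * K * N * (N : ℝ) ^ (1 - 4 / Q) * (H * lam) ^ (-κ) := by
              field_simp
              ring
          _ ≤ 4 * K * (N : ℝ) ^ 2 * (2 * lam ^ η) + 8 * K * N * (N : ℝ) ^ (1 - 4 / Q) * lam ^ (-η) :=
              add_le_add (mul_le_mul_of_nonneg_left r1 (by positivity))
                (mul_le_mul_of_nonneg_left r2 (by positivity))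
          _ = _ := by rw [hX2, hY2]; ring
      have b3 : X ^ 2 + Y ^ 2 ≤ (X + Y) ^ 2 := by nlinarith
      calc _ ≤ 2 * X ^ 2 + (8 * K * X ^ 2 + 8 * K * Y ^ 2) := hv.trans (add_le_add b1 b2)
        _ ≤ (2 + 8 * K) * (X ^ 2 + Y ^ 2) := by nlinarith [sq_nonneg Y]
        _ ≤ (2 + 8 * K) * (X + Y) ^ 2 := mul_le_mul_of_nonneg_left b3 (by linarith)
        _ ≤ (2 + 8 * K) ^ 2 * (X + Y) ^ 2 := by
            refine mul_le_mul_of_nonneg_right ?_ (by positivity)
            nlinarith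
        _ = _ := by ring
    exact (pow_le_pow_iff_left₀ (norm_nonneg _) (by positivity) two_ne_zero).1 hfin

end Pool.Agent.Lib.PZ
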