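import Pool.Agent.Lib.MP_092512_nt.VC.V1
import Pool.Agent.Lib.PZ.QD

/-!
# The `q`-th derivative test for the blocks of the zeta function
-/

set_option autoImplicit false

namespace Pool.Agent.Lib.PZ

open Finset Complex

/-- the shifts `(1, 0), …, (1, 0)` -/
def ones (q : ℕ) : List (ℕ × ℕ) := List.replicate q (1, 0)

theorem P_ones (q : ℕ) : VDC.P (ones q) = 1 := by
  induction q with
  | zero => rfl
  | succ q ih =>
    have : ones (q + 1) = (1, 0) :: ones q := rfl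
    rw [this, VDC.P_cons, ih]
    norm_num

theorem L_ones (q : ℕ) : VDC.L (ones q) = q := by
  induction q with
  | zero => simp [ones]
  | succ q ih =>
    have : ones (q + 1) = (1, 0) :: ones q := rfl
    rw [this, VDC.L_cons, ih]
    push_cast
    rw [max_eq_left (by norm_num)]
    ring

theorem dd_log (q : ℕ) (s x : ℝ) (n : ℕ) :
    dd q (fun m => s * Real.log (x + m)) n = s * VDC.D (ones q) Real.log (x + n) := by
  induction q generalizing n with
  | zero => rfl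
  | succ q ih =>
    have : ones (q + 1) = (1, 0) :: ones q := rfl
    show dd q (fun m => s * Real.log (x + m)) (n + 1) - dd q (fun m => s * Real.log (x + m)) n = _
    rw [ih, ih, this, VDC.D_cons]
    push_cast
    rw [add_zero, ← mul_sub, add_assoc]

/-- the size of the `q`-th difference of `log` -/
theorem dd_log_val (q : ℕ) (hq : 1 ≤ q) (s x : ℝ) (n : ℕ) (hx : 0 < x) :
    ∃ ξ : ℝ, x + n ≤ ξ ∧ ξ ≤ x + n + q ∧
      dd q (fun m => s * Real.log (x + m)) n = s * ((-1) ^ (q - 1) * ((q - 1).factorial : ℝ) / ξ ^ q) := by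
  have hxn : 0 < x + n := by positivity
  obtain ⟨ξ, h1, h2, h3⟩ := VDC.D_mvt (ones q) 0 hxn
  rw [L_ones] at h2
  refine ⟨ξ, h1, h2, ?_⟩
  have hg : VDC.g 0 = Real.log := by funext y; rfl
  rw [dd_log, ← hg, h3, P_ones, one_mul, zero_add]
  have hlen : (ones q).length = q := by simp [ones]
  rw [hlen]
  obtain ⟨q', rfl⟩ : ∃ q', q = q' + 1 := ⟨q - 1, by omega⟩
  rfl

theorem zlog (q : ℕ) (hq : 2 ≤ q) : ∃ K : ℝ, 1 ≤ K ∧ ∀ (N a b : ℕ) (t : ℝ), 1 ≤ N → N ≤ a → b ≤ a + N → b ≤ 3 * N → t ≠ 0 →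
    ‖∑ n ∈ range (b - a), Complex.exp (I * ((t * Real.log (a + n) : ℝ) : ℂ))‖ ≤
      K * (N * (|t| / (N : ℝ) ^ q) ^ kq q + (N : ℝ) ^ lq q * (|t| / (N : ℝ) ^ q) ^ (-kq q)) := by
  obtain ⟨K, hK, hK2⟩ := qdt q hq ((3 : ℝ) ^ q) (one_le_pow₀ (by norm_num))
  set c : ℝ := ((q - 1).factorial : ℝ) / 3 ^ q with hc
  have hc0 : 0 < c := by positivity
  set A : ℝ := max 1 (max (c ^ kq q) (c ^ (-kq q))) with hA
  have hA1 : 1 ≤ A := le_max_left _ _
  have hA2 : c ^ kq q ≤ A := (le_max_left _ _).trans (le_max_right _ _)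
  have hA3 : c ^ (-kq q) ≤ A := (le_max_right _ _).trans (le_max_right _ _)
  refine ⟨K * A, by nlinarith, fun N a b t hN hNa hb0 hb ht => ?_⟩
  have hNr : (1 : ℝ) ≤ N := by exact_mod_cast hN
  have hN0 : (0 : ℝ) < N := by linarith
  have ht0 : 0 < |t| := abs_pos.2 ht
  set X : ℝ := |t| / (N : ℝ) ^ q with hX
  have hX0 : 0 < X := by positivity
  rcases Nat.lt_or_ge a b with hab | hab
  swap
  · rw [Nat.sub_eq_zero_of_le hab, Finset.range_zero, Finset.sum_empty, norm_zero]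
    positivity
  set L : ℕ := b - a with hL
  have hL1 : 1 ≤ L := by omega
  have hLN : (L : ℝ) ≤ N := by
    have : L ≤ N := by omega
    exact_mod_cast this
  have haN : (N : ℝ) ≤ a := by exact_mod_cast hNa
  have ha0 : (0 : ℝ) < a := by linarith
  -- the sign
  obtain ⟨s, hs, hst⟩ : ∃ s : ℝ, (s = 1 ∨ s = -1) ∧ s * t * (-1) ^ (q - 1) = |t| := by
    rcases neg_one_pow_eq_or ℝ (q - 1) with h | h <;> rcases lt_or_gt_of_ne ht with h' | h'
    · exact ⟨-1, Or.inr rfl, by rw [h, abs_of_neg h']; ring⟩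
    · exact ⟨1, Or.inl rfl, by rw [h, abs_of_pos h']; ring⟩
    · exact ⟨1, Or.inl rfl, by rw [h, abs_of_neg h']; ring⟩
    · exact ⟨-1, Or.inr rfl, by rw [h, abs_of_pos h']; ring⟩
  have hnorm : ‖∑ n ∈ range L, Complex.exp (I * ((t * Real.log (a + n) : ℝ) : ℂ))‖ =
      ‖∑ n ∈ range L, Complex.exp (I * ((s * t * Real.log (a + n) : ℝ) : ℂ))‖ := by
    rcases hs with rfl | rfl
    · simp only [one_mul]
    · rw [← VDC.norm_sum_neg]
      congr 1
      refine Finset.sum_congr rfl fun n _ => ?_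
      congr 3
      ring
  rw [hnorm]
  set lam : ℝ := |t| * ((q - 1).factorial : ℝ) / (3 * (N : ℝ)) ^ q with hlam
  have hlam0 : 0 < lam := by positivity
  have hlam' : lam = c * X := by
    rw [hlam, hc, hX, mul_pow]
    field_simp
  have hval : ∀ n, n + q ≤ L → lam ≤ dd q (fun m => s * t * Real.log (a + m)) n ∧
      dd q (fun m => s * t * Real.log (a + m)) n ≤ (3 : ℝ) ^ q * lam := by
    intro n hn
    obtain ⟨ξ, h1, h2, h3⟩ := dd_log_val q (by omega) (s * t) a n ha0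
    have h4 : s * t * ((-1) ^ (q - 1) * ((q - 1).factorial : ℝ) / ξ ^ q) = |t| * ((q - 1).factorial : ℝ) / ξ ^ q := by
      rw [← hst]
      ring
    rw [h3, h4]
    have hξ1 : (N : ℝ) ≤ ξ := by
      have : (0 : ℝ) ≤ n := Nat.cast_nonneg n
      linarith
    have hξ2 : ξ ≤ 3 * N := by
      have h5 : a + n + q ≤ 3 * N := by omega
      have h6 : ((a + n + q : ℕ) : ℝ) ≤ ((3 * N : ℕ) : ℝ) := by exact_mod_cast h5
      push_cast at h6
      linarith
    have hξ0 : 0 < ξ := by linarith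
    constructor
    · rw [hlam]
      refine div_le_div_of_nonneg_left (by positivity) (by positivity) ?_
      exact pow_le_pow_left₀ hξ0.le hξ2 q
    · have e : (3 : ℝ) ^ q * lam = |t| * ((q - 1).factorial : ℝ) / (N : ℝ) ^ q := by
        rw [hlam, mul_pow]
        field_simp
      rw [e]
      refine div_le_div_of_nonneg_left (by positivity) (by positivity) ?_
      exact pow_le_pow_left₀ hN0.le hξ1 q
  have h := hK2 (fun m => s * t * Real.log (a + m)) L lam hL1 hlam0 (fun n hn => (hval n hn).1)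
    (fun n hn => (hval n hn).2)
  refine h.trans ?_
  have e1 : (L : ℝ) * lam ^ kq q ≤ A * (N * X ^ kq q) := by
    rw [hlam', Real.mul_rpow hc0.le hX0.le]
    calc (L : ℝ) * (c ^ kq q * X ^ kq q) ≤ N * (A * X ^ kq q) :=
          mul_le_mul hLN (mul_le_mul_of_nonneg_right hA2 (by positivity)) (by positivity) hN0.le
      _ = _ := by ring
  have e2 : (L : ℝ) ^ lq q * lam ^ (-kq q) ≤ A * ((N : ℝ) ^ lq q * X ^ (-kq q)) := by
    rw [hlam', Real.mul_rpow hc0.le hX0.le]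
    calc (L : ℝ) ^ lq q * (c ^ (-kq q) * X ^ (-kq q)) ≤ (N : ℝ) ^ lq q * (A * X ^ (-kq q)) :=
          mul_le_mul (Real.rpow_le_rpow (Nat.cast_nonneg _) hLN (lq_nonneg hq))
            (mul_le_mul_of_nonneg_right hA3 (by positivity)) (by positivity) (by positivity)
      _ = _ := by ring
  calc K * ((L : ℝ) * lam ^ kq q + (L : ℝ) ^ lq q * lam ^ (-kq q))
      ≤ K * (A * (N * X ^ kq q) + A * ((N : ℝ) ^ lq q * X ^ (-kq q))) :=
        mul_le_mul_of_nonneg_left (add_le_add e1 e2) (by linarith)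
    _ = _ := by ring

/-- **zeta blocks** -/
theorem zblock (q : ℕ) (hq : 2 ≤ q) : ∃ K : ℝ, 1 ≤ K ∧ ∀ (N a b : ℕ) (t : ℝ), 1 ≤ N → N ≤ a → b ≤ a + N → b ≤ 3 * N → t ≠ 0 →
    ‖∑ n ∈ Ico a b, (n : ℂ) ^ (-((t : ℂ) * I))‖ ≤
      K * (N * (|t| / (N : ℝ) ^ q) ^ kq q + (N : ℝ) ^ lq q * (|t| / (N : ℝ) ^ q) ^ (-kq q)) := by
  obtain ⟨K, hK, hK2⟩ := zlog q hq
  refine ⟨K, hK, fun N a b t hN hNa hb0 hb ht => ?_⟩
  have h := hK2 N a b (-t) hN hNa hb0 hb (neg_ne_zero.2 ht)
  rw [abs_neg] at h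
  refine le_trans (le_of_eq ?_) h
  congr 1
  rw [Finset.sum_Ico_eq_sum_range]
  refine Finset.sum_congr rfl fun n _ => ?_
  have hpos : (0 : ℝ) < (a : ℝ) + n := by
    have : 0 < a + n := by omega
    exact_mod_cast this
  rw [Complex.cpow_def_of_ne_zero (by
    have : ((a + n : ℕ) : ℂ) ≠ 0 := by
      rw [Nat.cast_ne_zero]
      omega
    exact this)]
  congr 1
  have e : Complex.log ((a + n : ℕ) : ℂ) = ((Real.log ((a : ℝ) + n) : ℝ) : ℂ) := by
    rw [Complex.ofReal_log hpos.le]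
    push_cast
    rfl
  rw [e]
  push_cast
  ring

end Pool.Agent.Lib.PZ
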